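import Pool.Agent.PFC.StmtsB7

/-!
# PFC, block B7, row CYQ: cyclic inertial quotients are closed under quotients
-/

open scoped BigOperators

noncomputable section

namespace Pool.Agent.PFC.H32

open Pool.Agent.Helper51_AWC Pool.Agent.Helper79_WRA Pool.Agent.PP Pool.Agent.PP.KF
open Pool.Agent.PP.K9 Pool.Agent.PP.K9.H97 Pool.Agent.PP.H75 Pool.Agent.PP.T3 Pool.Agent.PP.T2
open Pool.Agent.PP.T5 Pool.Agent.PP.TB Pool.Agent.PP.TV Pool.Agent.PP.TX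
open Pool.Agent.PP.T8 (Fq Fr In Iq)

attribute [local instance] Ideal.Quotient.field

section

variable {G A : Type} [Group G] [Group A] {V : Subgroup G} {V' : Subgroup A}

/-- the pairs `(s, t)`, `s` in `S`, `t` in `T'`, such that `s` induces `t` -/
def prs (π : V →* V') (S : Subgroup G) (hS : S ≤ Subgroup.normalizer (V : Set G))
    (T' : Subgroup A) : Subgroup (G × A) where
  carrier := {x | x.1 ∈ S ∧ x.2 ∈ T' ∧
    ∀ v w : V, (w : G) = x.1 * v * x.1⁻¹ → (π w : A) = x.2 * π v * x.2⁻¹}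
  one_mem' := ⟨S.one_mem, T'.one_mem, fun v w h => by
    have h1 : w = v := Subtype.ext (by rw [h]; simp)
    rw [h1]; simp⟩
  mul_mem' := fun {x y} hx hy => ⟨S.mul_mem hx.1 hy.1, T'.mul_mem hx.2.1 hy.2.1, fun v w h => by
    have h1 : y.1 * v * y.1⁻¹ ∈ V := (Subgroup.mem_normalizer_iff.1 (hS hy.1) v).1 v.2
    have h2 := hy.2.2 v ⟨_, h1⟩ rfl
    have h3 := hx.2.2 ⟨_, h1⟩ w (by
      rw [h]
      change x.1 * y.1 * v * (x.1 * y.1)⁻¹ = x.1 * (y.1 * v * y.1⁻¹) * x.1⁻¹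
      group)
    rw [h3, h2]
    change x.2 * (y.2 * π v * y.2⁻¹) * x.2⁻¹ = x.2 * y.2 * π v * (x.2 * y.2)⁻¹
    group⟩
  inv_mem' := fun {x} hx => ⟨S.inv_mem hx.1, T'.inv_mem hx.2.1, fun v w h => by
    have h3 := hx.2.2 w v (by
      rw [h]
      change (v : G) = x.1 * (x.1⁻¹ * v * x.1⁻¹⁻¹) * x.1⁻¹
      group)
    rw [h3]
    change (π w : A) = x.2⁻¹ * (x.2 * π w * x.2⁻¹) * x.2⁻¹⁻¹
    group⟩

end

/-- CYQ -/
theorem cyq : CyqStmt := by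
  rintro F _ G A _ _ _ _ V γ V' γ' ⟨π, hπ, hq⟩ ⟨t0, ht0, hgen⟩
  have hS : Subgroup.zpowers t0 ≤ Subgroup.normalizer (V : Set G) := by
    rw [Subgroup.zpowers_le]; exact ht0.1
  have hcyc : IsCyclic ((prs π (Subgroup.zpowers t0) hS (Tg V' γ')).map
      (MonoidHom.fst G A)) := by
    have h1 : (prs π (Subgroup.zpowers t0) hS (Tg V' γ')).map (MonoidHom.fst G A) ≤
        Subgroup.zpowers t0 := by
      rintro _ ⟨x, hx, rfl⟩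
      exact hx.1
    exact isCyclic_of_injective (Subgroup.inclusion h1) (Subgroup.inclusion_injective h1)
  obtain ⟨⟨s1, ⟨x1, hx1, hs1⟩⟩, hg⟩ := hcyc.exists_generator
  have hs1' : x1.1 = s1 := hs1
  refine ⟨x1.2, hx1.2.1, fun x' hx' => ?_⟩
  obtain ⟨t, ht, hi⟩ := hq x' hx'
  obtain ⟨k, hk⟩ := hgen t ht
  have hact : ∀ v ∈ V, t0 ^ k * v * (t0 ^ k)⁻¹ = t * v * t⁻¹ := by
    intro v hv
    have h1 : t * v * t⁻¹ ∈ V := (Subgroup.mem_normalizer_iff.1 ht.1 v).1 hv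
    have h2 := Subgroup.mem_centralizer_iff.1 hk _ h1
    have h3 : t * v * t⁻¹ * (t0 ^ k * t⁻¹) * (t * (t0 ^ k)⁻¹) =
        t0 ^ k * t⁻¹ * (t * v * t⁻¹) * (t * (t0 ^ k)⁻¹) := by rw [h2]
    have h4 : t * v * t⁻¹ * (t0 ^ k * t⁻¹) * (t * (t0 ^ k)⁻¹) = t * v * t⁻¹ := by group
    have h5 : t0 ^ k * t⁻¹ * (t * v * t⁻¹) * (t * (t0 ^ k)⁻¹) = t0 ^ k * v * (t0 ^ k)⁻¹ := by
      group
    rw [← h5, ← h3, h4]
  have hmem : (t0 ^ k, x') ∈ prs π (Subgroup.zpowers t0) hS (Tg V' γ') :=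
    ⟨Subgroup.npow_mem_zpowers t0 k, hx', fun v w h => hi v w (by rw [h]; exact hact v v.2)⟩
  have hmem1 : t0 ^ k ∈ (prs π (Subgroup.zpowers t0) hS (Tg V' γ')).map (MonoidHom.fst G A) :=
    ⟨_, hmem, rfl⟩
  have h1 := hg ⟨_, hmem1⟩
  rw [← mem_powers_iff_mem_zpowers] at h1
  obtain ⟨m, hm⟩ := h1
  have hm' : x1.1 ^ m = t0 ^ k := by rw [hs1']; exact congrArg Subtype.val hm
  have hmem2 : x1 ^ m ∈ prs π (Subgroup.zpowers t0) hS (Tg V' γ') := Subgroup.pow_mem _ hx1 m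
  refine ⟨m, Subgroup.mem_centralizer_iff.2 fun v' hv' => ?_⟩
  have h2 : x'⁻¹ * v' * x' ∈ V' := (Subgroup.mem_normalizer_iff''.1 hx'.1 v').1 hv'
  obtain ⟨v, hv⟩ := hπ ⟨_, h2⟩
  have h3 : t0 ^ k * v * (t0 ^ k)⁻¹ ∈ V :=
    (Subgroup.mem_normalizer_iff.1 (hS (Subgroup.npow_mem_zpowers t0 k)) v).1 v.2
  have h4 := hmem.2.2 v ⟨_, h3⟩ rfl
  have h5 := hmem2.2.2 v ⟨_, h3⟩ (by
    change t0 ^ k * v * (t0 ^ k)⁻¹ = x1.1 ^ m * v * (x1.1 ^ m)⁻¹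
    rw [hm'])
  rw [hv] at h4 h5
  change _ = x' * (x'⁻¹ * v' * x') * x'⁻¹ at h4
  change _ = x1.2 ^ m * (x'⁻¹ * v' * x') * (x1.2 ^ m)⁻¹ at h5
  rw [h4] at h5
  have h6 : v' = x1.2 ^ m * (x'⁻¹ * v' * x') * (x1.2 ^ m)⁻¹ := by
    rw [← h5]; group
  calc v' * (x1.2 ^ m * x'⁻¹) =
      x1.2 ^ m * (x'⁻¹ * v' * x') * (x1.2 ^ m)⁻¹ * (x1.2 ^ m * x'⁻¹) := by rw [← h6]
    _ = x1.2 ^ m * x'⁻¹ * v' := by group

end Pool.Agent.PFC.H32
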