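import Pool.Agent.PFC.StmtsB6
import Pool.Agent.Helper39_AT6.LWD

/-!
# PFC, block B6, row JLQ: the restriction of `j` to `C(W)`
-/

open scoped BigOperators

noncomputable section

namespace Pool.Agent.PFC.H32

open Pool.Agent.Helper51_AWC Pool.Agent.Helper79_WRA Pool.Agent.PP Pool.Agent.PP.KF
open Pool.Agent.PP.K9 Pool.Agent.PP.K9.H97 Pool.Agent.PP.H75 Pool.Agent.PP.T3 Pool.Agent.PP.T2
open Pool.Agent.PP.T8 (Fr rs pw)

attribute [local instance] Ideal.Quotient.field

/-- JLQ -/
theorem jlq (hJun : JunStmt) (hLpb : LpbStmt) : JlqStmt := by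
  intro ℓ _ M _ hM G _ _ e V γ hL hfr j hj W hWV hW1
  have hF : GoodF ℓ (FF M) := H50.fld ℓ Fact.out M hM
  have hVX : V ≤ Subgroup.centralizer (W : Set G) := by
    intro x hx
    rw [Subgroup.mem_centralizer_iff]
    intro q hq
    exact hL.ab q (hWV hq) x hx
  have hCX : Subgroup.centralizer (V : Set G) ≤ Subgroup.centralizer (W : Set G) :=
    Subgroup.centralizer_le (fun x hx => hWV hx)
  obtain ⟨f, hf⟩ := (T6.H39.lwd ℓ M hM G e V γ hL W hWV).1
  have hbr : ∀ a : G → FF M, (fun t : Subgroup.centralizer (W : Set G) => br W a t) =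
      fun t : Subgroup.centralizer (W : Set G) => a t := by
    intro a
    funext t
    exact H66.br_of_mem t.2
  have hbs : ∀ (a : G → FF M) x, x ∉ Subgroup.centralizer (W : Set G) → br W a x = 0 :=
    fun a x hx => H66.br_of_not_mem hx
  have hjW : H66.Inv W j := fun p hp x => hj.iv p (hWV hp) x
  have hWp : IsPGroup ℓ W := hL.tp.pg.to_le hWV
  -- the restriction is an idempotent
  have h1 : mulF (fun t : Subgroup.centralizer (W : Set G) => j t)
      (fun t : Subgroup.centralizer (W : Set G) => j t) =
      fun t : Subgroup.centralizer (W : Set G) => j t := by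
    have h2 := mulF_res (Subgroup.centralizer (W : Set G)) (br W j) (hbs j)
    rw [← H66.br_mulF hF hWp hjW hjW, hj.id, hbr] at h2
    exact h2.symm
  -- it is under `f`
  have h3 : mulF (fun t : Subgroup.centralizer (W : Set G) => f t)
      (fun t : Subgroup.centralizer (W : Set G) => j t) =
      fun t : Subgroup.centralizer (W : Set G) => j t := by
    have h4 := mulF_res (Subgroup.centralizer (W : Set G)) f (hbs j)
    rw [hj.lb W hWV f hf, hbr] at h4
    rw [H46.mulF_comm hf.blk.blk.1.1]
    exact h4.symm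
  -- the Brauer image at `V`
  have h5 : br (V.subgroupOf (Subgroup.centralizer (W : Set G)))
      (fun t : Subgroup.centralizer (W : Set G) => j t) =
      fun t : Subgroup.centralizer (W : Set G) => br V j t := by
    funext t
    by_cases ht : (t : G) ∈ Subgroup.centralizer (V : Set G)
    · rw [H66.br_of_mem ht, H66.br_of_mem ((cent_sub hVX t).2 ht)]
    · rw [H66.br_of_not_mem ht, H66.br_of_not_mem (fun h => ht ((cent_sub hVX t).1 h))]
  have h6 : mulF (br (V.subgroupOf (Subgroup.centralizer (W : Set G)))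
      (fun t : Subgroup.centralizer (W : Set G) => j t))
      (fun t : Subgroup.centralizer (W : Set G) => γ t) =
      br (V.subgroupOf (Subgroup.centralizer (W : Set G)))
      (fun t : Subgroup.centralizer (W : Set G) => j t) := by
    rw [h5, ← mulF_res (Subgroup.centralizer (W : Set G)) γ
      (fun x hx => H66.br_of_not_mem (fun h => hx (hCX h))), (hJun ℓ M hM G e V γ hL j hj).2.2]
  refine hLpb ℓ M hM G e V γ hL hfr W hWV hW1 f hf _ h1 (fun v hv x => ?_) h3 h6 ?_
  · exact hj.iv v hv x
  · intro κ hκ h7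
    apply hj.nz κ hκ
    rw [← h7]
    apply finsum_congr
    intro t
    rw [H46.ext0_of_mem _ (hCX t.2)]

end Pool.Agent.PFC.H32
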