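import Pool.Agent.PFC.StmtsB5c

/-!
# PFC, block B5c, row LCR: local rings
-/

open scoped BigOperators TensorProduct

noncomputable section

namespace Pool.Agent.PFC.B5c.H32

/-- LCR -/
theorem lcr : LcrStmt := by
  intro F V _ _ X Y b j κ hb hj hκ
  have hkj : ∀ y, κ y * j = κ y := fun y => by rw [← hκ.one, ← hκ.mul, mul_one]
  have hjk : ∀ y, j * κ y = κ y := fun y => by rw [← hκ.one, ← hκ.mul, one_mul]
  have hfx : ∀ y : Cz F Y.ι ⊤, κ y ∈ Fx (cj F X.ι) ⊤ := by
    intro y v _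
    change X.ι v * (κ y * X.ι v⁻¹) = κ y
    rw [← mul_assoc]
    have h1 : Y.ι v * (y : Y.A) = y * Y.ι v :=
      (Subalgebra.mem_centralizer_iff F).1 y.2 _ ⟨v, Subgroup.mem_top v, rfl⟩
    have h2 : κ (Y.ι v * (y : Y.A)) = κ (y * Y.ι v) := by rw [h1]
    rw [hκ.mul, hκ.mul, hκ.cov, mul_assoc, hjk, hκ.com, ← mul_assoc, hkj] at h2
    rw [h2, mul_assoc, ← map_mul, mul_inv_cancel, map_one, mul_one]
  have hmul : ∀ y z : Cz F Y.ι ⊤, b (κ (y * z)) = b (κ y) * b (κ z) := by
    intro y z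
    rw [hκ.mul]
    exact hb.mul _ (hfx y) _ (hfx z)
  have hone : b (κ 1) = 1 := by rw [hκ.one, hj.bj]
  have hpow : ∀ (y : Y.A) (n : ℕ), κ (y ^ (n + 1)) = κ y ^ (n + 1) := by
    intro y n
    induction n with
    | zero => rw [zero_add, pow_one, pow_one]
    | succ n ih => rw [pow_succ, hκ.mul, ih, ← pow_succ]
  have hnil : ∀ y : Cz F Y.ι ⊤, b (κ y) = 0 → IsNilpotent y := by
    intro y hy
    have h1 : j * κ y * j = κ y := by rw [hjk, hkj]
    obtain ⟨n, hn⟩ := hj.nil (κ y) (hfx y) (by rw [h1]; exact hy)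
    rw [h1] at hn
    refine ⟨n + 1, Subtype.ext ?_⟩
    apply hκ.inj
    change κ ((y : Y.A) ^ (n + 1)) = κ 0
    rw [hpow, pow_succ, hn, zero_mul, map_zero]
  have hunit : ∀ y : Cz F Y.ι ⊤, b (κ y) ≠ 0 → IsUnit y := by
    intro y hy
    have h1 : IsNilpotent (y - algebraMap F _ (b (κ y))) := by
      apply hnil
      change b (κ ((y : Y.A) - algebraMap F Y.A (b (κ y)))) = 0
      rw [Algebra.algebraMap_eq_smul_one, map_sub, map_smul, map_sub, map_smul, hone,
        smul_eq_mul, mul_one, sub_self]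
    have h2 : IsUnit (algebraMap F (Cz F Y.ι ⊤) (b (κ y))) :=
      (IsUnit.mk0 _ hy).map (algebraMap F (Cz F Y.ι ⊤))
    have h3 := h1.isUnit_add_left_of_commute h2 (Algebra.commutes _ _).symm
    rw [add_sub_cancel] at h3
    exact h3
  have hnt : Nontrivial (Cz F Y.ι ⊤) := by
    refine ⟨0, 1, fun h => ?_⟩
    have h1 : (0 : Y.A) = 1 := congrArg Subtype.val h
    have h2 := hone
    rw [← h1, map_zero, map_zero] at h2
    exact zero_ne_one h2
  refine { isUnit_or_isUnit_of_add_one := ?_ }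
  intro x y hxy
  by_cases hx : b (κ x) = 0
  · right
    apply hunit
    intro hy
    have h1 : b (κ ((x : Y.A) + y)) = 1 := by
      rw [← hone]
      exact congrArg (fun z : Y.A => b (κ z)) (congrArg Subtype.val hxy)
    rw [map_add, map_add, hx, hy, add_zero] at h1
    exact zero_ne_one h1
  · left
    exact hunit x hx

end Pool.Agent.PFC.B5c.H32
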