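import Pool.Agent.PFC.StmtsB1
import Pool.Agent.Helper77_PFC.CAS

set_option autoImplicit false

/-!
# PFC, block B1, row PLF: the projective bimodule lifts

Model of `Γ ⊗ W ⊗ Γ`: the bilinear maps `z : Γ × Γ → W`, `(γ z)(x, y) = z (x γ, y)`,
`(z γ)(x, y) = z (x, γ y)`.
-/

namespace Pool.Agent.PFC.B1.H32

open MulOpposite

section gen

variable {R Γ W A I : Type} [CommRing R] [Ring Γ] [Algebra R Γ] [AddCommGroup W] [Module R W]
  [Ring A] [Algebra R A] [Fintype I]

variable (R Γ W) in
/-- left action -/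
def lF : Γ →ₐ[R] Module.End R (Γ →ₗ[R] Γ →ₗ[R] W) where
  toFun γ :=
    { toFun := fun z => z ∘ₗ LinearMap.mulRight R γ
      map_add' := fun _ _ => rfl
      map_smul' := fun _ _ => rfl }
  map_one' := by
    apply LinearMap.ext; intro z; apply LinearMap.ext; intro x; apply LinearMap.ext; intro y
    change z (x * 1) y = z x y
    rw [mul_one]
  map_mul' a b := by
    apply LinearMap.ext; intro z; apply LinearMap.ext; intro x; apply LinearMap.ext; intro y
    change z (x * (a * b)) y = z (x * a * b) y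
    rw [mul_assoc]
  map_zero' := by
    apply LinearMap.ext; intro z; apply LinearMap.ext; intro x; apply LinearMap.ext; intro y
    change z (x * 0) y = 0
    rw [mul_zero, map_zero, LinearMap.zero_apply]
  map_add' a b := by
    apply LinearMap.ext; intro z; apply LinearMap.ext; intro x; apply LinearMap.ext; intro y
    change z (x * (a + b)) y = z (x * a) y + z (x * b) y
    rw [mul_add, map_add, LinearMap.add_apply]
  commutes' r := by
    apply LinearMap.ext; intro z; apply LinearMap.ext; intro x; apply LinearMap.ext; intro y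
    change z (x * algebraMap R Γ r) y = r • z x y
    rw [← Algebra.commutes, ← Algebra.smul_def, map_smul, LinearMap.smul_apply]

variable (R Γ W) in
/-- right action -/
def rF : Γᵐᵒᵖ →ₐ[R] Module.End R (Γ →ₗ[R] Γ →ₗ[R] W) where
  toFun γ :=
    { toFun := fun z => z.compl₂ (LinearMap.mulLeft R γ.unop)
      map_add' := fun _ _ => rfl
      map_smul' := fun _ _ => rfl }
  map_one' := by
    apply LinearMap.ext; intro z; apply LinearMap.ext; intro x; apply LinearMap.ext; intro y
    change z x (1 * y) = z x y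
    rw [one_mul]
  map_mul' a b := by
    apply LinearMap.ext; intro z; apply LinearMap.ext; intro x; apply LinearMap.ext; intro y
    change z x ((b.unop * a.unop) * y) = z x (b.unop * (a.unop * y))
    rw [mul_assoc]
  map_zero' := by
    apply LinearMap.ext; intro z; apply LinearMap.ext; intro x; apply LinearMap.ext; intro y
    change z x (0 * y) = 0
    rw [zero_mul, map_zero]
  map_add' a b := by
    apply LinearMap.ext; intro z; apply LinearMap.ext; intro x; apply LinearMap.ext; intro y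
    change z x ((a.unop + b.unop) * y) = z x (a.unop * y) + z x (b.unop * y)
    rw [add_mul, map_add]
  commutes' r := by
    apply LinearMap.ext; intro z; apply LinearMap.ext; intro x; apply LinearMap.ext; intro y
    change z x (algebraMap R Γ r * y) = r • z x y
    rw [← Algebra.smul_def, map_smul]

theorem lF_apply (γ : Γ) (z : Γ →ₗ[R] Γ →ₗ[R] W) (x y : Γ) : lF R Γ W γ z x y = z (x * γ) y :=
  rfl

theorem rF_apply (γ : Γ) (z : Γ →ₗ[R] Γ →ₗ[R] W) (x y : Γ) :
    rF R Γ W (op γ) z x y = z x (γ * y) := rfl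

theorem lr_comm (a b : Γ) (z : Γ →ₗ[R] Γ →ₗ[R] W) :
    lF R Γ W a (rF R Γ W (op b) z) = rF R Γ W (op b) (lF R Γ W a z) := rfl

/-- the map to `A` -/
def mF (c : FS R Γ I) (j : Γ →ₐ[R] A) (ω : W →ₗ[R] A) : (Γ →ₗ[R] Γ →ₗ[R] W) →ₗ[R] A where
  toFun z := ∑ i, ∑ l, j (c.b i) * ω (z (c.b' i) (c.b l)) * j (c.b' l)
  map_add' z z' := by
    simp only [LinearMap.add_apply, map_add, mul_add, add_mul, Finset.sum_add_distrib]
  map_smul' r z := by
    simp only [LinearMap.smul_apply, map_smul, RingHom.id_apply, Finset.smul_sum,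
      mul_smul_comm, smul_mul_assoc]

theorem mF_apply (c : FS R Γ I) (j : Γ →ₐ[R] A) (ω : W →ₗ[R] A) (z : Γ →ₗ[R] Γ →ₗ[R] W) :
    mF c j ω z = ∑ i, ∑ l, j (c.b i) * ω (z (c.b' i) (c.b l)) * j (c.b' l) := rfl

theorem mF_l (c : FS R Γ I) (j : Γ →ₐ[R] A) (ω : W →ₗ[R] A) (γ : Γ)
    (z : Γ →ₗ[R] Γ →ₗ[R] W) : mF c j ω (lF R Γ W γ z) = j γ * mF c j ω z := by
  have h := H77.cas R Γ I A c (LinearMap.mk₂ R
    (fun x y => ∑ l, j x * ω (z y (c.b l)) * j (c.b' l))
    (fun x x' y => by simp only [map_add, add_mul, Finset.sum_add_distrib])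
    (fun r x y => by simp only [map_smul, Finset.smul_sum, smul_mul_assoc])
    (fun x y y' => by
      simp only [map_add, LinearMap.add_apply, mul_add, add_mul, Finset.sum_add_distrib])
    (fun r x y => by
      simp only [map_smul, LinearMap.smul_apply, Finset.smul_sum, smul_mul_assoc,
        mul_smul_comm])) γ
  simp only [LinearMap.mk₂_apply] at h
  rw [mF_apply, mF_apply, Finset.mul_sum]
  simp only [lF_apply]
  rw [← h]
  refine Finset.sum_congr rfl fun i _ => ?_
  rw [Finset.mul_sum]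
  refine Finset.sum_congr rfl fun l _ => ?_
  rw [map_mul, mul_assoc (j γ), mul_assoc (j γ)]

theorem mF_r (c : FS R Γ I) (j : Γ →ₐ[R] A) (ω : W →ₗ[R] A) (γ : Γ)
    (z : Γ →ₗ[R] Γ →ₗ[R] W) : mF c j ω (rF R Γ W (op γ) z) = mF c j ω z * j γ := by
  have h := H77.cas R Γ I A c (LinearMap.mk₂ R
    (fun x y => ∑ i, j (c.b i) * ω (z (c.b' i) x) * j y)
    (fun x x' y => by
      simp only [map_add, mul_add, add_mul, Finset.sum_add_distrib])
    (fun r x y => by
      simp only [map_smul, Finset.smul_sum, smul_mul_assoc, mul_smul_comm])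
    (fun x y y' => by simp only [map_add, mul_add, Finset.sum_add_distrib])
    (fun r x y => by simp only [map_smul, Finset.smul_sum, mul_smul_comm])) γ
  simp only [LinearMap.mk₂_apply] at h
  rw [mF_apply, mF_apply, Finset.sum_comm]
  simp only [rF_apply]
  rw [h, Finset.sum_comm, Finset.sum_mul]
  refine Finset.sum_congr rfl fun i _ => ?_
  rw [Finset.sum_mul]
  refine Finset.sum_congr rfl fun l _ => ?_
  rw [map_mul, mul_assoc, mul_assoc, mul_assoc]

/-- the endomorphism given by a linear map `L` -/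
def eF (L : (Γ →ₗ[R] Γ →ₗ[R] W) →ₗ[R] W) :
    (Γ →ₗ[R] Γ →ₗ[R] W) →ₗ[R] (Γ →ₗ[R] Γ →ₗ[R] W) where
  toFun z := LinearMap.mk₂ R (fun x y => L (lF R Γ W x (rF R Γ W (op y) z)))
    (fun x x' y => by rw [map_add, LinearMap.add_apply, map_add])
    (fun r x y => by rw [map_smul, LinearMap.smul_apply, map_smul])
    (fun x y y' => by rw [op_add, map_add, LinearMap.add_apply, map_add, map_add])
    (fun r x y => by rw [op_smul, map_smul, LinearMap.smul_apply, map_smul, map_smul])
  map_add' z z' := by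
    apply LinearMap.ext; intro x; apply LinearMap.ext; intro y
    simp only [LinearMap.mk₂_apply, LinearMap.add_apply, map_add]
  map_smul' r z := by
    apply LinearMap.ext; intro x; apply LinearMap.ext; intro y
    simp only [LinearMap.mk₂_apply, LinearMap.smul_apply, map_smul, RingHom.id_apply]

theorem eF_apply (L : (Γ →ₗ[R] Γ →ₗ[R] W) →ₗ[R] W) (z : Γ →ₗ[R] Γ →ₗ[R] W) (x y : Γ) :
    eF L z x y = L (lF R Γ W x (rF R Γ W (op y) z)) := rfl

theorem eF_l (L : (Γ →ₗ[R] Γ →ₗ[R] W) →ₗ[R] W) (γ : Γ) (z : Γ →ₗ[R] Γ →ₗ[R] W) :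
    eF L (lF R Γ W γ z) = lF R Γ W γ (eF L z) := by
  apply LinearMap.ext; intro x; apply LinearMap.ext; intro y
  rw [lF_apply, eF_apply, eF_apply, ← lr_comm, map_mul]
  rfl

theorem eF_r (L : (Γ →ₗ[R] Γ →ₗ[R] W) →ₗ[R] W) (γ : Γ) (z : Γ →ₗ[R] Γ →ₗ[R] W) :
    eF L (rF R Γ W (op γ) z) = rF R Γ W (op γ) (eF L z) := by
  apply LinearMap.ext; intro x; apply LinearMap.ext; intro y
  rw [rF_apply, eF_apply, eF_apply, op_mul, map_mul]
  rfl

end gen

section ps

variable {F : Type} [Field F]

/-- division by `X` of a linear map -/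
theorem divX {M N : Type} [AddCommGroup M] [Module (PowerSeries F) M]
    [Module.Projective (PowerSeries F) M] [AddCommGroup N] [Module (PowerSeries F) N]
    (f : M →ₗ[PowerSeries F] N) (h : ∀ x, ∃ y, f x = (PowerSeries.X : PowerSeries F) • y) :
    ∃ g : M →ₗ[PowerSeries F] N, f = (PowerSeries.X : PowerSeries F) • g := by
  let m : N →ₗ[PowerSeries F] N := (PowerSeries.X : PowerSeries F) • LinearMap.id
  have hm : ∀ y, m y = (PowerSeries.X : PowerSeries F) • y := fun y => rfl
  have hf : ∀ x, f x ∈ LinearMap.range m := fun x => by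
    obtain ⟨y, hy⟩ := h x
    exact ⟨y, by rw [hm, hy]⟩
  obtain ⟨g, hg⟩ := Module.projective_lifting_property m.rangeRestrict
    (f.codRestrict (LinearMap.range m) hf) m.surjective_rangeRestrict
  refine ⟨g, LinearMap.ext fun x => ?_⟩
  have h1 := LinearMap.congr_fun hg x
  have h2 := congrArg Subtype.val h1
  exact h2.symm

/-- minimal cover of a module killed by `X` -/
theorem cover (A : Type) [AddCommGroup A] [Module (PowerSeries F) A]
    [Module.Finite (PowerSeries F) A]
    (hX : ∀ x : A, (PowerSeries.X : PowerSeries F) • x = 0) :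
    ∃ (n : ℕ) (ω : (Fin n → PowerSeries F) →ₗ[PowerSeries F] A), Function.Surjective ω ∧
      ∀ w, ω w = 0 → ∃ y, w = (PowerSeries.X : PowerSeries F) • y := by
  let _ : Module F A := Module.compHom A (PowerSeries.C : F →+* PowerSeries F)
  have hC : ∀ (a : F) (x : A), a • x = (PowerSeries.C a : PowerSeries F) • x := fun _ _ => rfl
  have hsm : ∀ (r : PowerSeries F) (x : A), r • x = (PowerSeries.constantCoeff r : F) • x := by
    intro r x
    conv_lhs => rw [PowerSeries.eq_shift_mul_X_add_const r]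
    rw [add_smul, mul_smul, hX, smul_zero, zero_add, hC]
  have hfin : Module.Finite F A := by
    obtain ⟨S, hS⟩ := Module.Finite.fg_top (R := PowerSeries F) (M := A)
    refine ⟨⟨S, ?_⟩⟩
    rw [eq_top_iff]
    intro x _
    let N : Submodule (PowerSeries F) A :=
      { carrier := Submodule.span F (S : Set A)
        add_mem' := fun {a b} ha hb => Submodule.add_mem _ ha hb
        zero_mem' := Submodule.zero_mem _
        smul_mem' := fun r y hy => by
          rw [hsm]; exact Submodule.smul_mem _ _ hy }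
    have h1 : Submodule.span (PowerSeries F) (S : Set A) ≤ N :=
      Submodule.span_le.2 fun y hy => Submodule.subset_span hy
    have h2 : x ∈ Submodule.span (PowerSeries F) (S : Set A) := by rw [hS]; trivial
    exact h1 h2
  let b := Module.finBasis F A
  refine ⟨Module.finrank F A, Fintype.linearCombination (PowerSeries F) b, ?_, ?_⟩
  · intro x
    refine ⟨fun s => PowerSeries.C (b.repr x s), ?_⟩
    rw [Fintype.linearCombination_apply]
    exact b.sum_repr x
  · intro w hw
    rw [Fintype.linearCombination_apply] at hw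
    have h1 : ∑ s, (PowerSeries.constantCoeff (w s) : F) • b s = 0 := by
      rw [← hw]
      exact Finset.sum_congr rfl fun s _ => (hsm _ _).symm
    have h2 := Fintype.linearIndependent_iff.1 b.linearIndependent _ h1
    have h3 : ∀ s, ∃ y, w s = (PowerSeries.X : PowerSeries F) * y := fun s =>
      PowerSeries.X_dvd_iff.2 (h2 s)
    choose y hy using h3
    exact ⟨y, funext fun s => hy s⟩

end ps

section res

variable {R Γ W : Type} [CommRing R] [Ring Γ] [Algebra R Γ] [AddCommGroup W] [Module R W]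

/-- restriction of an action to a submodule -/
def rst {B V : Type} [Ring B] [Algebra R B] [AddCommGroup V] [Module R V]
    (f : B →ₐ[R] Module.End R V) (P : Submodule R V) (h : ∀ b, ∀ z ∈ P, f b z ∈ P) :
    B →ₐ[R] Module.End R P where
  toFun b := (f b).restrict (h b)
  map_one' := by
    apply LinearMap.ext; intro z; apply Subtype.ext
    change f 1 z = z
    rw [map_one]; rfl
  map_mul' a b := by
    apply LinearMap.ext; intro z; apply Subtype.ext
    change f (a * b) z = f a (f b z)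
    rw [map_mul]; rfl
  map_zero' := by
    apply LinearMap.ext; intro z; apply Subtype.ext
    change f 0 z = 0
    rw [map_zero]; rfl
  map_add' a b := by
    apply LinearMap.ext; intro z; apply Subtype.ext
    change f (a + b) z = f a z + f b z
    rw [map_add]; rfl
  commutes' r := by
    apply LinearMap.ext; intro z; apply Subtype.ext
    change f (algebraMap R B r) z = r • (z : V)
    rw [f.commutes]; rfl

theorem rst_apply {B V : Type} [Ring B] [Algebra R B] [AddCommGroup V] [Module R V]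
    (f : B →ₐ[R] Module.End R V) (P : Submodule R V) (h : ∀ b, ∀ z ∈ P, f b z ∈ P) (b : B)
    (z : P) : (rst f P h b z : V) = f b z := rfl

end res

/-- the lift, given a minimal cover `ω : W → ker e` -/
theorem asm (hI : IdlStmt) (F Γ A I W : Type) [Field F] [Ring Γ] [Algebra (PowerSeries F) Γ]
    [Module.Finite (PowerSeries F) Γ] [Module.Free (PowerSeries F) Γ] [Ring A]
    [Algebra (PowerSeries F) A] [Fintype I]
    [AddCommGroup W] [Module (PowerSeries F) W] [Module.Finite (PowerSeries F) W]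
    [Module.Free (PowerSeries F) W]
    (c : FS (PowerSeries F) Γ I) (D : Res F Γ A I c)
    (ω0 : W →ₗ[PowerSeries F] LinearMap.ker D.e) (hω0 : Function.Surjective ω0)
    (hker0 : ∀ w, ω0 w = 0 → ∃ y, w = (PowerSeries.X : PowerSeries F) • y) :
    ∃ (P : Type) (_ : AddCommGroup P) (_ : Module (PowerSeries F) P)
      (_ : Module.Finite (PowerSeries F) P) (_ : Module.Free (PowerSeries F) P),
      Nonempty (PL F Γ A I P c D) := by
  have hXA : ∀ x : A, (PowerSeries.X : PowerSeries F) • x = 0 := fun x => by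
    rw [Algebra.smul_def, D.hX, zero_mul]
  have hee : ∀ x, D.e (D.e x) = D.e x := fun x => by
    obtain ⟨γ, hγ⟩ := D.e1 x
    rw [hγ, D.e2]
  obtain ⟨ω, hω⟩ : ∃ ω : W →ₗ[PowerSeries F] A, ∀ w, ω w = ω0 w :=
    ⟨(LinearMap.ker D.e).subtype ∘ₗ ω0, fun w => rfl⟩
  have hωe : ∀ w, D.e (ω w) = 0 := fun w => by rw [hω]; exact (ω0 w).2
  have hωk : ∀ w, ω w = 0 → ∃ y, w = (PowerSeries.X : PowerSeries F) • y := fun w hw =>
    hker0 w (Subtype.ext (by rw [← hω, hw]; rfl))
  obtain ⟨m, hm⟩ : ∃ m, m = mF c D.j ω := ⟨_, rfl⟩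
  have hme : ∀ z, D.e (m z) = 0 := fun z => by
    rw [hm, mF_apply, map_sum]
    refine Finset.sum_eq_zero fun i _ => ?_
    rw [map_sum]
    refine Finset.sum_eq_zero fun l _ => ?_
    rw [D.e4, D.e3, hωe, mul_zero, zero_mul]
  obtain ⟨t, ht⟩ : ∃ t : A →ₗ[PowerSeries F] A, ∀ x, t x = D.a x - D.e (D.a x) :=
    ⟨D.a - D.e ∘ₗ D.a, fun x => rfl⟩
  have hte : ∀ x, D.e (t x) = 0 := fun x => by rw [ht, map_sub, hee, sub_self]
  have hT : ∀ x, D.e x = 0 → ∑ i, ∑ l, D.j (c.b i) *
      t (D.j (c.b' i) * x * D.j (c.b l)) * D.j (c.b' l) = x := by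
    intro x hx
    have h1 : ∀ i l, D.j (c.b i) * t (D.j (c.b' i) * x * D.j (c.b l)) * D.j (c.b' l) =
        D.j (c.b i) * D.a (D.j (c.b' i) * x * D.j (c.b l)) * D.j (c.b' l) -
        D.e (D.j (c.b i) * D.a (D.j (c.b' i) * x * D.j (c.b l)) * D.j (c.b' l)) := by
      intro i l
      rw [D.e4, D.e3, ht, mul_sub, sub_mul]
    simp only [h1, Finset.sum_sub_distrib]
    have h2 := D.a_id x
    rw [hx, sub_zero] at h2
    simp only [← map_sum]
    rw [h2, hx, sub_zero]
  obtain ⟨L, hL⟩ : ∃ L : (Γ →ₗ[PowerSeries F] Γ →ₗ[PowerSeries F] W) →ₗ[PowerSeries F] W,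
      ∀ z, ω (L z) = t (m z) := by
    obtain ⟨L, hL⟩ := Module.projective_lifting_property ω0
      ((t ∘ₗ m).codRestrict (LinearMap.ker D.e) (fun z => hte _)) hω0
    exact ⟨L, fun z => by
      rw [hω]; exact congrArg Subtype.val (LinearMap.congr_fun hL z)⟩
  have hlr : ∀ x y z, m (lF (PowerSeries F) Γ W x (rF (PowerSeries F) Γ W (op y) z)) =
      D.j x * m z * D.j y := fun x y z => by
    rw [hm, mF_l, mF_r, mul_assoc]
  have h_me : ∀ z, m (eF L z) = m z := fun z => by
    conv_lhs => rw [hm, mF_apply]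
    simp only [eF_apply, hL, hlr]
    exact hT _ (hme z)
  have h_ke : ∀ z, m z = 0 → ∃ y, eF L z = (PowerSeries.X : PowerSeries F) • y := fun z hz => by
    refine divX _ fun x => divX _ fun y => hωk _ ?_
    rw [eF_apply, hL, hlr, hz, mul_zero, zero_mul, map_zero]
  have h_id : ∀ z, ∃ y, eF L (eF L z) - eF L z = (PowerSeries.X : PowerSeries F) • y :=
    fun z => by
      obtain ⟨y, hy⟩ := h_ke (eF L z - z) (by rw [map_sub, h_me, sub_self])
      refine ⟨y, ?_⟩
      rw [← hy]
      exact ((eF L).map_sub _ _).symm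
  obtain ⟨g, hgg, hgS, hge⟩ := hI F (Γ →ₗ[PowerSeries F] Γ →ₗ[PowerSeries F] W)
    (Set.range (lF (PowerSeries F) Γ W) ∪ Set.range (rF (PowerSeries F) Γ W)) (eF L)
    (by
      rintro s (⟨γ, rfl⟩ | ⟨γ, rfl⟩)
      · exact LinearMap.ext fun z => (eF_l L γ z).symm
      · exact LinearMap.ext fun z => (eF_r L γ.unop z).symm) h_id
  have hgl : ∀ γ z, g (lF (PowerSeries F) Γ W γ z) = lF (PowerSeries F) Γ W γ (g z) :=
    fun γ z => (LinearMap.congr_fun (hgS _ (Or.inl ⟨γ, rfl⟩)) z).symm
  have hgr : ∀ γ z, g (rF (PowerSeries F) Γ W γ z) = rF (PowerSeries F) Γ W γ (g z) :=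
    fun γ z => (LinearMap.congr_fun (hgS _ (Or.inr ⟨γ, rfl⟩)) z).symm
  have hg2 : ∀ z, g (g z) = g z := fun z => LinearMap.congr_fun hgg z
  have hmX : ∀ y, m ((PowerSeries.X : PowerSeries F) • y) = 0 := fun y => by
    rw [map_smul]; exact hXA _
  have hmg : ∀ z, m (g z) = m z := fun z => by
    obtain ⟨y, hy⟩ := hge z
    have h1 : g z = eF L z + (PowerSeries.X : PowerSeries F) • y := by rw [← hy]; abel
    rw [h1, map_add, h_me, hmX, add_zero]
  have hlP : ∀ γ, ∀ z ∈ LinearMap.range g, lF (PowerSeries F) Γ W γ z ∈ LinearMap.range g := by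
    rintro γ _ ⟨z, rfl⟩
    exact ⟨_, hgl γ z⟩
  have hrP : ∀ γ, ∀ z ∈ LinearMap.range g, rF (PowerSeries F) Γ W γ z ∈ LinearMap.range g := by
    rintro γ _ ⟨z, rfl⟩
    exact ⟨_, hgr γ z⟩
  have hPg : ∀ z : LinearMap.range g, g z = z := by
    rintro ⟨_, ⟨z, rfl⟩⟩
    exact hg2 z
  obtain ⟨q, hq⟩ : ∃ q : LinearMap.range g →ₗ[PowerSeries F] A, ∀ z, q z = m z :=
    ⟨m ∘ₗ (LinearMap.range g).subtype, fun z => rfl⟩
  have hqe : ∀ z, D.e (q z) = 0 := fun z => by rw [hq]; exact hme _
  have hqs : ∀ y, D.e y = 0 → ∃ x, q x = y := by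
    intro y hy
    obtain ⟨z, hz⟩ : ∃ z, m z = y := by
      obtain ⟨β, hβ⟩ : ∃ β : Γ →ₗ[PowerSeries F] Γ →ₗ[PowerSeries F] LinearMap.ker D.e,
          ∀ x x', (β x x' : A) = t (D.j x * y * D.j x') :=
        ⟨LinearMap.mk₂ (PowerSeries F) (fun x x' => ⟨t (D.j x * y * D.j x'), hte _⟩)
          (fun x1 x2 x' => Subtype.ext (by
            change t (D.j (x1 + x2) * y * D.j x') =
              t (D.j x1 * y * D.j x') + t (D.j x2 * y * D.j x')
            rw [map_add, add_mul, add_mul, map_add]))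
          (fun r x x' => Subtype.ext (by
            change t (D.j (r • x) * y * D.j x') = r • t (D.j x * y * D.j x')
            rw [map_smul, smul_mul_assoc, smul_mul_assoc, map_smul]))
          (fun x x1 x2 => Subtype.ext (by
            change t (D.j x * y * D.j (x1 + x2)) =
              t (D.j x * y * D.j x1) + t (D.j x * y * D.j x2)
            rw [map_add, mul_add, map_add]))
          (fun r x x' => Subtype.ext (by
            change t (D.j x * y * D.j (r • x')) = r • t (D.j x * y * D.j x')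
            rw [map_smul, mul_smul_comm, map_smul])), fun x x' => rfl⟩
      obtain ⟨z, hz⟩ := Module.projective_lifting_property
        (LinearMap.llcomp (PowerSeries F) Γ W (LinearMap.ker D.e) ω0) β (fun f => by
          obtain ⟨h, hh⟩ := Module.projective_lifting_property ω0 f hω0
          exact ⟨h, hh⟩)
      have hz' : ∀ x x', ω (z x x') = t (D.j x * y * D.j x') := fun x x' => by
        rw [hω, ← hβ]
        exact congrArg Subtype.val (LinearMap.congr_fun (LinearMap.congr_fun hz x) x')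
      refine ⟨z, ?_⟩
      rw [hm, mF_apply]
      simp only [hz']
      exact hT y hy
    exact ⟨⟨g z, ⟨z, rfl⟩⟩, by rw [hq]; exact (hmg z).trans hz⟩
  have hfree : Module.Free (PowerSeries F) (LinearMap.range g) := by
    obtain ⟨k, bN⟩ := Submodule.basisOfPid (Module.Free.chooseBasis (PowerSeries F)
      (Γ →ₗ[PowerSeries F] Γ →ₗ[PowerSeries F] W)) (LinearMap.range g)
    exact Module.Free.of_basis bN
  have hfin : Module.Finite (PowerSeries F) (LinearMap.range g) := inferInstance
  obtain ⟨a', ha'⟩ : ∃ a' : LinearMap.range g →ₗ[PowerSeries F] LinearMap.range g,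
      ∀ z, q (a' z) = t (q z) := by
    obtain ⟨a', ha'⟩ := Module.projective_lifting_property
      (q.codRestrict (LinearMap.ker D.e) hqe)
      ((t ∘ₗ q).codRestrict (LinearMap.ker D.e) (fun z => hte _))
      (by
        rintro ⟨y, hy⟩
        obtain ⟨x, hx⟩ := hqs y hy
        exact ⟨x, Subtype.ext hx⟩)
    exact ⟨a', fun z => congrArg Subtype.val (LinearMap.congr_fun ha' z)⟩
  have hql : ∀ γ x, q (rst (lF (PowerSeries F) Γ W) _ hlP γ x) = D.j γ * q x := fun γ x => by
    rw [hq, hq, rst_apply, hm, mF_l]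
  have hqr : ∀ γ x, q (rst (rF (PowerSeries F) Γ W) _ hrP (op γ) x) = q x * D.j γ := fun γ x => by
    rw [hq, hq, rst_apply, hm, mF_r]
  refine ⟨LinearMap.range g, inferInstance, inferInstance, hfin, hfree, ⟨{
    lm := rst (lF (PowerSeries F) Γ W) _ hlP
    rm := rst (rF (PowerSeries F) Γ W) _ hrP
    comm := fun a b x => Subtype.ext
      (lr_comm a b.unop (x : Γ →ₗ[PowerSeries F] Γ →ₗ[PowerSeries F] W))
    q := q
    q1 := hql
    q2 := hqr
    q3 := hqe
    q4 := hqs
    q5 := ?_
    a' := a'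
    a'_id := ?_ }⟩⟩
  · intro x hx
    obtain ⟨y, hy⟩ := hge x
    obtain ⟨y', hy'⟩ := h_ke x (by rw [← hq]; exact hx)
    refine ⟨⟨g (y + y'), ⟨_, rfl⟩⟩, Subtype.ext ?_⟩
    change (x : Γ →ₗ[PowerSeries F] Γ →ₗ[PowerSeries F] W) =
      (PowerSeries.X : PowerSeries F) • g (y + y')
    rw [← map_smul, smul_add, ← hy, ← hy', sub_add_cancel, hg2, hPg]
  · intro x
    simp only [map_sum, hql, hqr, ha']
    have h1 := hT (q x) (hqe x)
    simp only [mul_assoc] at h1 ⊢
    exact h1

/-- PLF -/
theorem plf (hI : IdlStmt) : PlfStmt := by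
  intro F Γ A I _ _ _ _ _ _ _ _ _ c D
  have hXA : ∀ x : A, (PowerSeries.X : PowerSeries F) • x = 0 := fun x => by
    rw [Algebra.smul_def, D.hX, zero_mul]
  obtain ⟨n, ω0, hω0, hker0⟩ := cover (F := F) (LinearMap.ker D.e)
    (fun x => Subtype.ext (hXA x))
  exact asm hI F Γ A I (Fin n → PowerSeries F) c D ω0 hω0 hker0

end Pool.Agent.PFC.B1.H32
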