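import Pool.Agent.PFC.StmtsB5d

/-!
# PFC, block B5d, row QGW: gluing over the subgroups which are not in `W`
-/

open scoped BigOperators TensorProduct

noncomputable section

namespace Pool.Agent.PFC.B5c.H32

section lists

variable {ι : Type}

/-- the multiset with `|μ Q|` times the pair `(Q, sign)` -/
def ml (U : Finset ι) (μ : ι → ℤ) : Multiset (ι × Bool) :=
  ∑ Q ∈ U, Multiset.replicate (μ Q).natAbs (Q, decide (0 < μ Q))

theorem mem_ml {U : Finset ι} {μ : ι → ℤ} {p : ι × Bool} (hp : p ∈ ml U μ) : p.1 ∈ U := by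
  unfold ml at hp
  rw [Multiset.mem_sum] at hp
  obtain ⟨Q, hQ, h⟩ := hp
  rw [Multiset.eq_of_mem_replicate h]
  exact hQ

theorem map_ml (U : Finset ι) (μ : ι → ℤ) (g : ι → ι) :
    (ml U μ).map (fun p => (g p.1, p.2)) =
      ∑ Q ∈ U, Multiset.replicate (μ Q).natAbs (g Q, decide (0 < μ Q)) := by
  unfold ml
  have h := map_sum (Multiset.mapAddMonoidHom (fun p : ι × Bool => (g p.1, p.2)))
    (fun Q => Multiset.replicate (μ Q).natAbs (Q, decide (0 < μ Q))) U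
  rw [Multiset.coe_mapAddMonoidHom] at h
  refine h.trans (Finset.sum_congr rfl fun Q _ => ?_)
  rw [Multiset.map_replicate]

theorem perm_ml (U : Finset ι) (μ : ι → ℤ) (e : ι ≃ ι) (hU : ∀ Q, Q ∈ U ↔ e Q ∈ U)
    (hμ : ∀ Q, μ (e Q) = μ Q) :
    (ml U μ).map (fun p => (e p.1, p.2)) = ml U μ := by
  rw [map_ml]
  unfold ml
  refine Finset.sum_equiv e hU fun Q _ => ?_
  rw [hμ]

theorem count_ml [DecidableEq ι] (U : Finset ι) (μ : ι → ℤ) (g : ι → ι) (S : ι) :
    (((ml U μ).map (fun p => (g p.1, p.2))).count (S, true) : ℤ) -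
      ((ml U μ).map (fun p => (g p.1, p.2))).count (S, false) =
      ∑ Q ∈ U.filter (fun Q => g Q = S), μ Q := by
  rw [map_ml, Multiset.count_sum', Multiset.count_sum', Nat.cast_sum, Nat.cast_sum,
    ← Finset.sum_sub_distrib, Finset.sum_filter]
  refine Finset.sum_congr rfl fun Q _ => ?_
  rw [Multiset.count_replicate, Multiset.count_replicate]
  simp only [Prod.mk.injEq]
  by_cases h1 : g Q = S
  · by_cases h2 : 0 < μ Q
    · rw [if_pos ⟨h1, by simpa using h2⟩, if_neg (by simp [h2]), if_pos h1]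
      omega
    · rw [if_neg (by simp [h2]), if_pos ⟨h1, by simpa using h2⟩, if_pos h1]
      omega
  · rw [if_neg (fun h => h1 h.1), if_neg (fun h => h1 h.1), if_neg h1]
    simp

theorem cnt {α : Type} [BEq α] [LawfulBEq α] [DecidableEq α] (a : α) (l : List α) :
    List.count a l = Multiset.count a (l : Multiset α) := by
  induction l with
  | nil => simp
  | cons b l ih =>
    rw [List.count_cons, ih, ← Multiset.cons_coe, Multiset.count_cons]
    by_cases h : b = a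
    · simp [h]
    · simp [h, Ne.symm h]

end lists

/-- QGW without the hypothesis on `⊤` -/
theorem glue (hQmw : QmwStmt) (hQlq : QlqStmt) (hQlp : QlpStmt) (hQis : QisStmt)
    (hQsn : QsnStmt) (hQlr : QlrStmt) (hQdi : QdiStmt)
    (ℓ : ℕ) [Fact ℓ.Prime] (F V : Type) [Field F] [CharP F ℓ] [CommGroup V] [Finite V]
    (W : Subgroup V) (Sg : Set (MulAut V)) (S : Subgroup V → IA F V) (hp : IsPGroup ℓ V)
    (hSg : ∀ σ ∈ Sg, W.map σ.toMonoidHom = W)
    (hS : ∀ Q, ¬ Q ≤ W → Mx (S Q) ∧ CP (S Q))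
    (hBQ : ∀ Q, ¬ Q ≤ W → ∀ R : Subgroup V, BQ (S Q) (S (Q ⊔ R)) R)
    (hone : Iso (S ⊤) (IA.one F V))
    (hiso : ∀ σ ∈ Sg, ∀ Q, ¬ Q ≤ W → IsoT σ (S Q) (S (Q.map σ.toMonoidHom))) :
    ∃ N : IA F V, Mx N ∧ CP N ∧ (∀ σ ∈ Sg, Rz N σ) ∧ BQ N (IA.one F V) ⊤ ∧
      ∀ R : Subgroup V, ¬ R ≤ W → ∃ N' : IA F V, BQ N N' R ∧ Ret (N'.tens (S R)) ∧
        BQ (N'.tens (S R)) (IA.one F V) ⊤ := by
  classical
  have : Fintype (Subgroup V) := Fintype.ofFinite _
  obtain ⟨μ, hμ1, hμ2⟩ := hQmw V W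
  obtain ⟨i_rf, i_sy, -, i_BQ, -, -, i_Ret, -, -, i_cm, -, -, -, i_tr, i_one, -⟩ := hQis F V
  obtain ⟨U, hU⟩ : ∃ U : Finset (Subgroup V), ∀ Q, Q ∈ U ↔ ¬ Q ≤ W :=
    ⟨Finset.univ.filter (fun Q => ¬ Q ≤ W), fun Q => by simp⟩
  obtain ⟨L, hL⟩ : ∃ L : List (Subgroup V × Bool), (L : Multiset (Subgroup V × Bool)) = ml U μ :=
    ⟨(ml U μ).toList, Multiset.coe_toList _⟩
  have hLm : ∀ p ∈ L, ¬ p.1 ≤ W := by
    intro p hp'
    have h1 : p ∈ (L : Multiset (Subgroup V × Bool)) := Multiset.mem_coe.2 hp'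
    rw [hL] at h1
    exact (hU _).1 (mem_ml h1)
  -- a product over any list with entries not in `W` has the trivial quotient at `⊤`
  have hTop : ∀ L' : List (Subgroup V × Bool), (∀ p ∈ L', ¬ p.1 ≤ W) →
      BQ (prd S L') (IA.one F V) ⊤ := by
    intro L' hL'
    have h1 := (hQlq ℓ F V (Subgroup V) (Subgroup V) S S (fun Q => Q ⊔ ⊤) L' hp).2.2.1 ⊤
      (fun p hp' => hBQ p.1 (hL' p hp') ⊤)
    have h2 := (hQlq ℓ F V (Subgroup V) (Subgroup V) S S (fun Q => Q ⊔ ⊤)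
      (L'.map (fun p => (p.1 ⊔ ⊤, p.2))) hp).2.2.2.2 (by
        intro p hp'
        obtain ⟨q, -, rfl⟩ := List.mem_map.1 hp'
        change Iso (S (q.1 ⊔ ⊤)) _
        rw [sup_top_eq]
        exact hone)
    exact i_BQ _ _ _ _ ⊤ (i_rf _) h2 h1
  have hMx : Mx (prd S L) := (hQlq ℓ F V (Subgroup V) (Subgroup V) S S id L hp).1
    (fun p hp' => (hS p.1 (hLm p hp')).1)
  refine ⟨prd S L, hMx, (hQlq ℓ F V (Subgroup V) (Subgroup V) S S id L hp).2.1
    (fun p hp' => (hS p.1 (hLm p hp')).2), ?_, hTop L hLm, ?_⟩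
  · intro σ hσ
    apply (hQsn F V).1 _ _ hMx
    have h1 := (hQlq ℓ F V (Subgroup V) (Subgroup V) S S (fun Q => Q.map σ.toMonoidHom) L
      hp).2.2.2.1 σ (fun p hp' => hiso σ hσ p.1 (hLm p hp'))
    have h2 : (L.map (fun p => (p.1.map σ.toMonoidHom, p.2))).Perm L := by
      rw [← Multiset.coe_eq_coe, ← Multiset.map_coe, hL]
      refine perm_ml U μ (MulEquiv.mapSubgroup σ).toEquiv ?_ (fun Q => hμ1 σ (hSg σ hσ) Q)
      intro Q
      rw [hU, hU]
      change ¬ Q ≤ W ↔ ¬ Q.map σ.toMonoidHom ≤ W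
      rw [← hSg σ hσ]
      have h3 : Q.map σ.toMonoidHom ≤ W.map σ.toMonoidHom ↔ Q ≤ W :=
        Subgroup.map_le_map_iff_of_injective σ.injective
      rw [h3, hSg σ hσ]
    have h4 := i_tr σ 1 _ _ _ h1 ((i_one _ _).2 (hQlp F V (Subgroup V) S _ _ h2))
    rw [one_mul] at h4
    exact h4
  · intro R hR
    obtain ⟨LR, hLR⟩ : ∃ LR, LR = L.map (fun p : Subgroup V × Bool => (p.1 ⊔ R, p.2)) :=
      ⟨_, rfl⟩
    have hLRm : ∀ p ∈ (R, true) :: LR, ¬ p.1 ≤ W := by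
      intro p hp'
      rcases List.mem_cons.1 hp' with rfl | h
      · exact hR
      · rw [hLR] at h
        obtain ⟨q, -, rfl⟩ := List.mem_map.1 h
        exact fun h1 => hR (le_trans le_sup_right h1)
    have hcm : Iso (prd S ((R, true) :: LR)) ((prd S LR).tens (S R)) := i_cm _ _
    refine ⟨prd S LR, ?_, ?_, ?_⟩
    · have h1 := (hQlq ℓ F V (Subgroup V) (Subgroup V) S S (fun Q => Q ⊔ R) L hp).2.2.1 R
        (fun p hp' => hBQ p.1 (hLm p hp') R)
      rw [hLR]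
      exact h1
    · apply i_Ret _ _ hcm
      apply hQlr F V (Subgroup V) S _ (fun p hp' => ⟨(hS p.1 (hLRm p hp')).1, ?_⟩)
      · intro T
        have h1 := count_ml U μ (fun Q => Q ⊔ R) T
        rw [← hL, Multiset.map_coe, ← hLR] at h1
        have h2 : ∑ Q ∈ U.filter (fun Q => Q ⊔ R = T), μ Q =
            ∑ᶠ Q ∈ {Q : Subgroup V | ¬ Q ≤ W ∧ Q ⊔ R = T}, μ Q := by
          rw [finsum_mem_eq_finite_toFinset_sum _ (Set.toFinite _)]
          refine Finset.sum_congr ?_ fun _ _ => rfl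
          ext Q
          simp [hU]
        rw [h2] at h1
        rw [cnt, cnt, ← Multiset.cons_coe, Multiset.count_cons, Multiset.count_cons]
        by_cases h3 : T = R
        · rw [(hμ2 R T hR).1 h3] at h1
          subst h3
          rw [if_pos rfl, if_neg (by simp)]
          omega
        · rw [(hμ2 R T hR).2 h3] at h1
          rw [if_neg (fun h => h3 (congrArg Prod.fst h)),
            if_neg (fun h => h3 (congrArg Prod.fst h))]
          omega
      · obtain ⟨β, s, hb⟩ := hBQ p.1 (hLRm p hp') ⊤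
        have h1 := hQdi ℓ F V (S p.1).A (S (p.1 ⊔ ⊤)).A _ _ ⊤ β s hp hb.toBrS
        obtain ⟨e, -⟩ := hone
        rw [h1, sup_top_eq]
        have h2 : Module.finrank F (S ⊤).A = 1 := by
          rw [e.toLinearEquiv.finrank_eq]
          exact Module.finrank_self F
        rw [h2, Nat.cast_one]
        exact one_ne_zero
    · exact i_BQ _ _ _ _ ⊤ hcm (i_rf _) (hTop _ hLRm)

/-- QGW -/
theorem qgw (hQmw : QmwStmt) (hQlq : QlqStmt) (hQlp : QlpStmt) (hQis : QisStmt)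
    (hQsn : QsnStmt) (hQlr : QlrStmt) (hQdi : QdiStmt) : QgwStmt := by
  intro ℓ _ F V _ _ _ _ W Sg S hp _ hSg hS hBQ hone hiso
  exact glue hQmw hQlq hQlp hQis hQsn hQlr hQdi ℓ F V W Sg S hp hSg hS hBQ hone hiso

end Pool.Agent.PFC.B5c.H32
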