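import Pool.Agent.PFC.StmtsB4b

/-!
# PFC, block B4b, row QTJ: a unit which realises `σ` in the corner
-/

open scoped BigOperators TensorProduct

noncomputable section

namespace Pool.Agent.PFC.H32

section

variable {F V : Type} [Field F] [CommGroup V] {X : IA F V}

theorem fx_iff (x : X.A) : x ∈ Fx (cj F X.ι) ⊤ ↔ ∀ v, X.ι v * x = x * X.ι v := by
  constructor
  · intro h v
    have h1 : X.ι v * (x * X.ι v⁻¹) = x := h v (Subgroup.mem_top v)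
    calc X.ι v * x = X.ι v * (x * X.ι v⁻¹) * X.ι v := by
          rw [mul_assoc, mul_assoc, ← map_mul, inv_mul_cancel, map_one, mul_one]
      _ = x * X.ι v := by rw [h1]
  · intro h v _
    change X.ι v * (x * X.ι v⁻¹) = x
    rw [← mul_assoc, h, mul_assoc, ← map_mul, mul_inv_cancel, map_one, mul_one]

/-- conjugation with a unit which realises an automorphism -/
theorem fx_conj {σ : MulAut V} {y : X.Aˣ} (hy : ∀ v, (y : X.A) * X.ι v = X.ι (σ v) * y)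
    {x : X.A} (hx : x ∈ Fx (cj F X.ι) ⊤) : (y : X.A) * x * ↑y⁻¹ ∈ Fx (cj F X.ι) ⊤ := by
  rw [fx_iff] at hx ⊢
  intro v
  have h1 : X.ι v * (y : X.A) = y * X.ι (σ⁻¹ v) := by
    rw [hy, MulAut.apply_inv_self]
  have h2 : X.ι (σ⁻¹ v) * (↑y⁻¹ : X.A) = ↑y⁻¹ * X.ι v := by
    rw [Units.eq_inv_mul_iff_mul_eq, ← mul_assoc, Units.mul_inv_eq_iff_eq_mul, h1]
  rw [← mul_assoc, ← mul_assoc, h1, mul_assoc (y : X.A), hx, ← mul_assoc, mul_assoc _ _ (↑y⁻¹ : X.A),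
    h2, ← mul_assoc]

theorem inv_real {σ : MulAut V} {y : X.Aˣ} (hy : ∀ v, (y : X.A) * X.ι v = X.ι (σ v) * y) :
    ∀ v, ((y⁻¹ : X.Aˣ) : X.A) * X.ι v = X.ι (σ⁻¹ v) * ((y⁻¹ : X.Aˣ) : X.A) := by
  intro v
  have h1 : X.ι v * (y : X.A) = y * X.ι (σ⁻¹ v) := by
    rw [hy, MulAut.apply_inv_self]
  rw [Units.inv_mul_eq_iff_eq_mul, ← mul_assoc, ← h1, Units.mul_inv_cancel_right]

end

/-- QTJ -/
theorem qtj (hQcx : QcxStmt) (hQlu : QluStmt) : QtjStmt := by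
  intro ℓ _ F V _ _ _ _ X X' b j κ σ hp hbq hb hj hκ ⟨y, hy⟩
  have hyi := inv_real hy
  obtain ⟨b', hb'⟩ : ∃ b' : X.A →ₗ[F] F, ∀ a, b' a = b ((y : X.A) * a * ↑y⁻¹) :=
    ⟨b ∘ₗ (LinearMap.mulRight F (↑y⁻¹ : X.A)) ∘ₗ (LinearMap.mulLeft F (y : X.A)), fun a => rfl⟩
  have hcb' : Chr X b' := by
    refine ⟨?_, ?_, ?_⟩
    · rw [hb', mul_one, Units.mul_inv, hb.one]
    · intro x hx z hz
      rw [hb', hb', hb', ← hb.mul _ (fx_conj hy hx) _ (fx_conj hy hz)]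
      congr 1
      simp only [mul_assoc, Units.inv_mul_cancel_left]
    · intro v a
      rw [hb', hb', ← hb.inv (σ v) ((y : X.A) * a * ↑y⁻¹)]
      congr 1
      change (y : X.A) * (X.ι v * (a * X.ι v⁻¹)) * ↑y⁻¹ =
        X.ι (σ v) * ((y : X.A) * a * ↑y⁻¹ * X.ι (σ v)⁻¹)
      have h1 : (↑y⁻¹ : X.A) * X.ι (σ v)⁻¹ = X.ι v⁻¹ * ↑y⁻¹ := by
        rw [← map_inv, hyi, MulAut.inv_apply_self]
      rw [mul_assoc ((y : X.A) * a), h1, ← mul_assoc (y : X.A), hy]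
      simp only [mul_assoc]
  have hbb := (hQcx ℓ F V X hp hbq).2 b b' hb hcb'
  have hloc : Loc X b ((y : X.A) * j * ↑y⁻¹) := by
    refine ⟨fx_conj hy hj.fx, ?_, ?_, ?_⟩
    · rw [← mul_assoc, ← mul_assoc, Units.inv_mul_cancel_right, mul_assoc (y : X.A) j j, hj.id]
    · rw [← hb', ← hbb j hj.fx, hj.bj]
    · intro x hx h0
      have h1 : (y : X.A) * j * ↑y⁻¹ * x * ((y : X.A) * j * ↑y⁻¹) =
          y * (j * (↑y⁻¹ * x * y) * j) * ↑y⁻¹ := by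
        simp only [mul_assoc]
      have h2 : (↑y⁻¹ : X.A) * x * y ∈ Fx (cj F X.ι) ⊤ := by
        have h3 := fx_conj hyi hx
        rw [inv_inv] at h3
        exact h3
      have h3 : j * (↑y⁻¹ * x * y) * j ∈ Fx (cj F X.ι) ⊤ := by
        rw [fx_iff] at h2 ⊢
        have h4 := (fx_iff j).1 hj.fx
        intro v
        rw [← mul_assoc, ← mul_assoc, h4, mul_assoc j, h2, ← mul_assoc j, mul_assoc _ _ j, h4,
          ← mul_assoc]
      rw [h1, ← hb', ← hbb _ h3] at h0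
      obtain ⟨n, hn⟩ := hj.nil _ h2 h0
      refine ⟨n, ?_⟩
      rw [h1, Units.conj_pow, hn, mul_zero, zero_mul]
  obtain ⟨u, hu, huj⟩ := hQlu F V X b _ j hb hloc hj
  have hzj : ((u * y : X.Aˣ) : X.A) * j = j * ((u * y : X.Aˣ) : X.A) := by
    rw [Units.val_mul, ← mul_assoc, ← huj]
    simp only [mul_assoc, Units.inv_mul, mul_one]
  have hzv : ∀ v, ((u * y : X.Aˣ) : X.A) * X.ι v = X.ι (σ v) * ((u * y : X.Aˣ) : X.A) := by
    intro v
    rw [Units.val_mul, mul_assoc, hy, ← mul_assoc, hu, mul_assoc]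
  obtain ⟨z, hz⟩ : ∃ z, z = u * y := ⟨_, rfl⟩
  rw [← hz] at hzj hzv
  have hzj' : ((z⁻¹ : X.Aˣ) : X.A) * j = j * ((z⁻¹ : X.Aˣ) : X.A) := by
    rw [Units.inv_mul_eq_iff_eq_mul, ← mul_assoc, hzj, Units.mul_inv_cancel_right]
  obtain ⟨w, hw⟩ := hκ.ran (z * j) (by rw [← mul_assoc, ← hzj, mul_assoc, hj.id])
    (by rw [mul_assoc, hj.id])
  obtain ⟨w', hw'⟩ := hκ.ran (↑z⁻¹ * j) (by rw [← mul_assoc, ← hzj', mul_assoc, hj.id])
    (by rw [mul_assoc, hj.id])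
  have h1 : w * w' = 1 := by
    apply hκ.inj
    rw [hκ.mul, hw, hw', hκ.one, hzj', ← mul_assoc, mul_assoc (z : X.A), hj.id, hzj,
      Units.mul_inv_cancel_right]
  have h2 : w' * w = 1 := by
    apply hκ.inj
    rw [hκ.mul, hw, hw', hκ.one, hzj, ← mul_assoc, mul_assoc _ j j, hj.id, hzj',
      Units.inv_mul_cancel_right]
  refine ⟨⟨w, w', h1, h2⟩, fun v => ?_⟩
  change w * X'.ι v = X'.ι (σ v) * w
  apply hκ.inj
  rw [hκ.mul, hκ.mul, hκ.cov, hκ.cov, hw]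
  calc (z : X.A) * j * (X.ι v * j) = z * X.ι v * j := by
        rw [hκ.com v, mul_assoc, ← mul_assoc j j, hj.id, ← hκ.com v, ← mul_assoc]
    _ = X.ι (σ v) * z * j := by rw [hzv]
    _ = X.ι (σ v) * j * (z * j) := by
        rw [mul_assoc _ j, ← mul_assoc j, ← hzj, mul_assoc (z : X.A), hj.id, mul_assoc]

end Pool.Agent.PFC.H32
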